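import Pool.Agent.Helper79.PN.Lem

set_option autoImplicit false

open scoped Classical

namespace Pool.Agent.Helper3.PN

open Pool.Agent.Helper79.PN

theorem nbx_ei (i : ZMod 5) : e i i = 1 := by
  unfold e
  rw [Pi.single_eq_same]

theorem nbx_inj {i j : ZMod 5} (h : e i = e j) : i = j := by
  by_contra hij
  have h1 : e i i = e j i := by rw [h]
  rw [nbx_ei] at h1
  unfold e at h1
  rw [Pi.single_eq_of_ne hij] at h1
  exact one_ne_zero h1

theorem nbx_sum (i : ZMod 5) : ∑ k, e i k = 1 := by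
  unfold e
  exact Fintype.sum_pi_single' i 1

theorem nbx_ne (K : Lam) (i j : ZMod 5) : K + e i ≠ K - e j := by
  intro h
  have h1 : ∑ k, (K + e i) k = ∑ k, (K - e j) k := by rw [h]
  simp only [Pi.add_apply, Pi.sub_apply, Finset.sum_add_distrib, Finset.sum_sub_distrib,
    nbx_sum] at h1
  omega

theorem nbx_mem (K K' : Lam) : K' ∈ nbs K ↔ ∃ i, K' = K + e i ∨ K' = K - e i := by
  unfold nbs
  simp only [Finset.mem_union, Finset.mem_image, Finset.mem_univ, true_and]
  constructor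
  · rintro (⟨i, h⟩ | ⟨i, h⟩)
    · exact ⟨i, Or.inl h.symm⟩
    · exact ⟨i, Or.inr h.symm⟩
  · rintro ⟨i, h | h⟩
    · exact Or.inl ⟨i, h.symm⟩
    · exact Or.inr ⟨i, h.symm⟩

theorem nbx_nbs (K : Lam) (f : Lam → ℝ) : ∑ K' ∈ nbs K, f K' = adj f K := by
  unfold nbs adj
  rw [Finset.sum_union, Finset.sum_image, Finset.sum_image, Finset.sum_add_distrib]
  · intro i _ j _ h
    have h' : K - e i = K - e j := h
    exact nbx_inj (sub_right_injective h')
  · intro i _ j _ h
    have h' : K + e i = K + e j := h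
    exact nbx_inj (add_left_cancel h')
  · rw [Finset.disjoint_left]
    intro K' h1 h2
    rw [Finset.mem_image] at h1 h2
    obtain ⟨i, -, hi⟩ := h1
    obtain ⟨j, -, hj⟩ := h2
    exact nbx_ne K i j (hi.trans hj.symm)

theorem nbx_one (θ : ℂ) (v : Vert θ) (φ : Vert θ → ℝ) :
    ∑ w ∈ nbV θ v, φ w = adj (ex θ φ) v.1 := by
  have h1 : ∀ w : Vert θ, φ w = ex θ φ w.1 := by
    intro w
    unfold ex
    rw [dif_pos w.2]
  rw [Finset.sum_congr rfl (fun w _ => h1 w)]
  unfold nbV
  rw [Finset.sum_subtype_eq_sum_filter, Finset.sum_filter_of_ne, nbx_nbs]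
  intro K _ hK
  by_contra hn
  apply hK
  unfold ex
  rw [dif_neg hn]

theorem st_NBX : ST_NBX := by
  intro θ v
  refine ⟨nbx_one θ v, ?_, ?_, ?_⟩
  · have h1 := nbx_one θ v (fun _ => 1)
    rw [Finset.sum_const, nsmul_eq_mul, mul_one] at h1
    rw [h1]
    have h2 : ex θ (fun _ => 1) = fun K => ind (Acc θ K) := by
      funext K
      unfold ex ind
      split_ifs <;> rfl
    rw [h2]
  · intro hv
    unfold nbV at hv
    rw [Finset.mem_subtype, nbx_mem] at hv
    obtain ⟨i, h | h⟩ := hv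
    · have h1 : v.1 i = (v.1 + e i) i := by rw [← h]
      rw [Pi.add_apply, nbx_ei] at h1
      omega
    · have h1 : v.1 i = (v.1 - e i) i := by rw [← h]
      rw [Pi.sub_apply, nbx_ei] at h1
      omega
  · intro w
    unfold nbV
    rw [Finset.mem_subtype, Finset.mem_subtype, nbx_mem, nbx_mem]
    constructor
    · rintro ⟨i, h | h⟩
      · exact ⟨i, Or.inr (by rw [h, add_sub_cancel_right])⟩
      · exact ⟨i, Or.inl (by rw [h, sub_add_cancel])⟩
    · rintro ⟨i, h | h⟩
      · exact ⟨i, Or.inr (by rw [h, add_sub_cancel_right])⟩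
      · exact ⟨i, Or.inl (by rw [h, sub_add_cancel])⟩

end Pool.Agent.Helper3.PN
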