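import Pool.Agent.Helper79.PN.Lem

set_option autoImplicit false

open scoped Classical

namespace Pool.Agent.Helper3.PN

open Pool.Agent.Helper79.PN

theorem st_SPC : ST_SPC := by
  intro E _ _ _ T x μ ν hT hx hνμ hν
  by_contra hcon
  push Not at hcon
  have h1 : algebraMap ℝ (E →L[ℂ] E) μ ≤ T := by
    rw [algebraMap_le_iff_le_spectrum (ha := hT)]
    intro y hy
    by_contra hlt
    push Not at hlt
    refine hcon y hlt ?_
    have := (spectrum.algebraMap_mem_iff (R := ℝ) (S := ℂ) (a := T) (r := y)).2 hy
    simpa using this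
  rw [ContinuousLinearMap.le_def] at h1
  have h2 := h1.re_inner_nonneg_right x
  rw [sub_apply, inner_sub_right, hν, Algebra.algebraMap_eq_smul_one,
    smul_apply, one_apply_eq_self, inner_smul_right_eq_smul,
    inner_self_eq_norm_sq_to_K, hx] at h2
  simp at h2
  linarith

end Pool.Agent.Helper3.PN
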