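import Pool.Agent.Helper79.PN.Lem

set_option autoImplicit false

open scoped Classical

namespace Pool.Agent.Helper3.PN

open Pool.Agent.Helper79.PN

theorem st_UNI : ST_UNI := by
  intro E _ _ _ T c hT hc hb
  have hanti : AntilipschitzWith (Real.toNNReal c⁻¹) T := by
    refine ContinuousLinearMap.antilipschitz_of_bound T ?_
    intro x
    rw [Real.coe_toNNReal _ (inv_nonneg.2 hc.le)]
    have := hb x
    rw [inv_mul_eq_div, le_div_iff₀ hc]
    linarith
  have hinj : Function.Injective T := hanti.injective
  have hclosed : IsClosed (T.range : Set E) := by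
    have h1 := hanti.isClosed_range T.uniformContinuous
    have h2 : (T.range : Set E) = Set.range T := LinearMap.coe_range _
    rw [h2]
    exact h1
  have hker : T.ker = ⊥ := LinearMap.ker_eq_bot.2 hinj
  have hadj : ContinuousLinearMap.adjoint T = T := ContinuousLinearMap.isSelfAdjoint_iff'.1 hT
  have horth : T.rangeᗮ = ⊥ := by
    rw [ContinuousLinearMap.orthogonal_range, hadj, hker]
  have hrange : T.range = ⊤ := by
    have h1 := (Submodule.topologicalClosure_eq_top_iff (K := T.range)).2 horth
    rwa [hclosed.submodule_topologicalClosure_eq] at h1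
  have hsurj : Function.Surjective T := LinearMap.range_eq_top.1 hrange
  rw [ContinuousLinearMap.isUnit_iff_bijective]
  exact ⟨hinj, hsurj⟩

end Pool.Agent.Helper3.PN
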